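import Mathlib

/-!
# MP_49f1ce_an: a non-mixing suspension flow over a transitive shift space with one periodic point
whose roof function is not cohomologous to a locally constant function
-/

namespace Pool.Agent.Results.MP_49f1ce_an.NonMixingSuspension

open Set Topology Filter

/-! ### definitions -/

/-- the left shift -/
def shift {A : Type} (x : ℤ → A) : ℤ → A := fun i => x (i + 1)

/-- shift spaces -/
structure IsShiftSpace {A : Type} [TopologicalSpace A] (X : Set (ℤ → A)) : Prop where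
  closed : IsClosed X
  nonempty : X.Nonempty
  inv : shift '' X = X

section Defs

variable {A : Type} [TopologicalSpace A] {X : Set (ℤ → A)}

/-- the shift on a shift space -/
def σ (hX : IsShiftSpace X) (x : X) : X :=
  ⟨shift x.1, hX.inv.subset (mem_image_of_mem _ x.2)⟩

/-- transitivity -/
def Transitive (hX : IsShiftSpace X) : Prop :=
  ∀ U V : Set X, IsOpen U → IsOpen V → U.Nonempty → V.Nonempty →
    ∃ n : ℕ, 1 ≤ n ∧ ((σ hX)^[n] '' U ∩ V).Nonempty

/-- the suspension space: the quotient of `X × ℝ` by the relation generated by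
`(x, s) ∼ (σ x, s - r x)` -/
def Susp (hX : IsShiftSpace X) (r : X → ℝ) : Type :=
  Quot fun p q : X × ℝ => q = (σ hX p.1, p.2 - r p.1)

/-- the quotient topology -/
instance (hX : IsShiftSpace X) (r : X → ℝ) : TopologicalSpace (Susp hX r) :=
  inferInstanceAs (TopologicalSpace (Quot _))

/-- the suspension flow: `s` moves at unit speed -/
def flow (hX : IsShiftSpace X) (r : X → ℝ) (t : ℝ) : Susp hX r → Susp hX r :=
  Quot.map (fun p => (p.1, p.2 + t)) (by
    rintro ⟨x, s⟩ _ rfl
    show _ = _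
    simp only
    congr 1
    ring)

/-- topological mixing of the suspension flow -/
def Mixing (hX : IsShiftSpace X) (r : X → ℝ) : Prop :=
  ∀ U V : Set (Susp hX r), IsOpen U → IsOpen V → U.Nonempty → V.Nonempty →
    ∃ T : ℝ, ∀ t ≥ T, (flow hX r t '' U ∩ V).Nonempty

/-- cohomologous functions -/
def Cohomologous (hX : IsShiftSpace X) (f g : X → ℝ) : Prop :=
  ∃ h : X → ℝ, Continuous h ∧ ∀ x, f x - g x = h (σ hX x) - h x

/-- locally constant functions -/
def LocConst (g : X → ℝ) : Prop :=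
  ∃ N : ℕ, ∀ x y : X, (∀ i : ℤ, |i| ≤ N → x.1 i = y.1 i) → g x = g y

end Defs

/-! ### the sparse set -/

/-- all decimal digits are `0` or `1` -/
def P : Set ℕ := {n | ∀ d ∈ Nat.digits 10 n, d ≤ 1}

lemma zero_mem : 0 ∈ P := by
  intro d hd
  simp at hd

lemma mem_iff (n : ℕ) : n ∈ P ↔ n % 10 ≤ 1 ∧ n / 10 ∈ P := by
  rcases Nat.eq_zero_or_pos n with rfl | hn
  · simp [zero_mem]
  · unfold P
    simp only [mem_ofPred_eq]
    rw [Nat.digits_def' (by norm_num) hn]
    simp

lemma mod_lt {n : ℕ} (hn : n ∈ P) (k : ℕ) : 9 * (n % 10 ^ k) < 10 ^ k := by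
  induction k generalizing n with
  | zero => rw [pow_zero, Nat.mod_one]; norm_num
  | succ k ih =>
    obtain ⟨h1, h2⟩ := (mem_iff n).1 hn
    have h3 := ih h2
    have h4 : n % 10 ^ (k + 1) = n % 10 + 10 * (n / 10 % 10 ^ k) := by
      rw [pow_succ, mul_comm, Nat.mod_mul]
    have h5 : 10 ^ (k + 1) = 10 * 10 ^ k := by ring
    omega

lemma copy {b : ℕ} (hb : b ∈ P) (k : ℕ) {j : ℕ} (hj : j < 10 ^ k) : 10 ^ k * b + j ∈ P ↔ j ∈ P := by
  induction k generalizing j with
  | zero =>
    have : j = 0 := by simpa using hj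
    subst this
    simp [hb, zero_mem]
  | succ k ih =>
    have h5 : 10 ^ (k + 1) = 10 * 10 ^ k := by ring
    rw [mem_iff, mem_iff j]
    have e1 : (10 ^ (k + 1) * b + j) % 10 = j % 10 := by
      rw [h5, mul_assoc, Nat.mul_add_mod]
    have e2 : (10 ^ (k + 1) * b + j) / 10 = 10 ^ k * b + j / 10 := by
      rw [h5, mul_assoc, Nat.mul_add_div (by norm_num)]
    rw [e1, e2, ih (by omega)]

lemma one_mem : 1 ∈ P := by
  rw [mem_iff]
  exact ⟨by norm_num, by norm_num; exact zero_mem⟩

/-- gaps in the differences -/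
lemma diff_gap {n n' : ℕ} (hn : n ∈ P) (hn' : n' ∈ P) (h : n < n') (k : ℕ) :
    9 * (n' - n) < 10 ^ k ∨ 8 * 10 ^ k < 9 * (n' - n) := by
  have h1 := mod_lt hn k
  have h2 := mod_lt hn' k
  have e1 := Nat.div_add_mod n (10 ^ k)
  have e2 := Nat.div_add_mod n' (10 ^ k)
  rcases lt_trichotomy (n / 10 ^ k) (n' / 10 ^ k) with h3 | h3 | h3
  · right
    have h4 : 10 ^ k * (n / 10 ^ k) + 10 ^ k ≤ 10 ^ k * (n' / 10 ^ k) := by
      rw [← Nat.mul_succ]; exact Nat.mul_le_mul_left _ h3
    omega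
  · left
    rw [h3] at e1
    omega
  · exfalso
    have h4 : 10 ^ k * (n' / 10 ^ k) + 10 ^ k ≤ 10 ^ k * (n / 10 ^ k) := by
      rw [← Nat.mul_succ]; exact Nat.mul_le_mul_left _ h3
    omega

open Classical in
/-- the two-sided indicator of `P` -/
noncomputable def z (i : ℤ) : Bool := decide (0 ≤ i ∧ i.toNat ∈ P)

lemma z_iff {i : ℤ} : z i = true ↔ 0 ≤ i ∧ i.toNat ∈ P := by unfold z; simp

lemma z_copy (k : ℕ) {a : ℤ} (ha : 2 * |a| ≤ 10 ^ k) : z (10 ^ k + a) = z a := by
  rw [Bool.eq_iff_iff, z_iff, z_iff]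
  have hpos : (0 : ℤ) < 10 ^ k := by positivity
  have hcast : ((10 ^ k : ℕ) : ℤ) = 10 ^ k := by push_cast; rfl
  rcases le_or_gt 0 a with h | h
  · rw [abs_of_nonneg h] at ha
    obtain ⟨j, rfl⟩ := Int.eq_ofNat_of_zero_le h
    have hj : j < 10 ^ k := by
      have : (j : ℤ) < 10 ^ k := by linarith
      rw [← hcast] at this
      exact_mod_cast this
    have h1 : ((10 ^ k : ℤ) + (j : ℤ)).toNat = 10 ^ k * 1 + j := by
      rw [← hcast, mul_one]; omega
    rw [h1, Int.toNat_natCast, copy one_mem k hj]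
    constructor
    · rintro ⟨-, h2⟩; exact ⟨h, h2⟩
    · rintro ⟨-, h2⟩; exact ⟨by linarith, h2⟩
  · rw [abs_of_neg h] at ha
    constructor
    · rintro ⟨h1, h2⟩
      exfalso
      have h3 := mod_lt h2 k
      have h4 : (10 ^ k + a : ℤ).toNat < 10 ^ k := by
        rw [← hcast]; rw [← hcast] at h1; omega
      rw [Nat.mod_eq_of_lt h4] at h3
      have h5 : ((10 ^ k + a : ℤ).toNat : ℤ) = 10 ^ k + a := Int.toNat_of_nonneg h1
      have h6 : 9 * (10 ^ k + a) < (10 ^ k : ℤ) := by
        rw [← h5, ← hcast]; exact_mod_cast h3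
      linarith
    · rintro ⟨h1, -⟩; omega

lemma exists_pow (a : ℤ) : ∃ k : ℕ, 2 * |a| ≤ 10 ^ k := by
  refine ⟨(2 * |a|).toNat, ?_⟩
  have h1 : (2 * |a|).toNat < 10 ^ (2 * |a|).toNat := Nat.lt_pow_self (by norm_num)
  have h2 : ((2 * |a|).toNat : ℤ) = 2 * |a| := Int.toNat_of_nonneg (by positivity)
  rw [← h2]
  exact_mod_cast h1.le

/-! ### the shift space -/

/-- the shift space -/
def XX : Set (ℤ → Bool) := {w | ∀ N : ℕ, ∃ m : ℕ, ∀ i : ℤ, |i| ≤ N → w i = z (m + i)}

lemma isOpen_cyl (w : ℤ → Bool) (N : ℕ) : IsOpen {y : ℤ → Bool | ∀ i : ℤ, |i| ≤ N → y i = w i} := by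
  have : {y : ℤ → Bool | ∀ i : ℤ, |i| ≤ N → y i = w i} =
      ⋂ i ∈ Finset.Icc (-(N : ℤ)) N, {y : ℤ → Bool | y i = w i} := by
    ext y
    simp only [mem_ofPred_eq, mem_iInter, Finset.mem_Icc, abs_le]
  rw [this]
  refine isOpen_biInter_finset fun i _ => ?_
  have h1 : IsOpen ((fun y : ℤ → Bool => y i) ⁻¹' {w i}) :=
    (isOpen_discrete ({w i} : Set Bool)).preimage (continuous_apply (A := fun _ : ℤ => Bool) i)
  exact h1

lemma exists_cyl {U : Set XX} (hU : IsOpen U) {w : XX} (hw : w ∈ U) :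
    ∃ N : ℕ, ∀ y : XX, (∀ i : ℤ, |i| ≤ N → y.1 i = w.1 i) → y ∈ U := by
  obtain ⟨V, hV, rfl⟩ := isOpen_induced_iff.1 hU
  obtain ⟨I, u, hu, hIu⟩ := isOpen_pi_iff.1 hV w.1 hw
  refine ⟨∑ i ∈ I, i.natAbs, fun y hy => hIu fun i hi => ?_⟩
  have h1 : |i| ≤ ((∑ i ∈ I, i.natAbs : ℕ) : ℤ) := by
    rw [Int.abs_eq_natAbs]
    have := Finset.single_le_sum (f := fun i : ℤ => i.natAbs) (fun _ _ => Nat.zero_le _) hi
    exact_mod_cast this
  rw [hy i h1]
  exact (hu i hi).2

lemma isClosed_XX : IsClosed XX := by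
  rw [← isOpen_compl_iff, isOpen_iff_mem_nhds]
  intro w hw
  obtain ⟨N, hN⟩ := not_forall.1 hw
  refine mem_of_superset ((isOpen_cyl w N).mem_nhds fun _ _ => rfl) ?_
  intro y hy hcon
  obtain ⟨m, hm⟩ := hcon N
  exact hN ⟨m, fun i hi => by rw [← hy i hi]; exact hm i hi⟩

/-- all shifts of `z` -/
lemma shift_mem (m : ℤ) : (fun i => z (m + i)) ∈ XX := by
  intro N
  obtain ⟨k, hk⟩ := exists_pow (|m| + N)
  rw [abs_of_nonneg (by positivity : (0 : ℤ) ≤ |m| + N)] at hk
  have h0 : 0 ≤ 10 ^ k + m := by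
    have := neg_abs_le m
    have h3 : (0 : ℤ) ≤ N := Nat.cast_nonneg _
    have := abs_nonneg m
    linarith
  refine ⟨(10 ^ k + m).toNat, fun i hi => ?_⟩
  rw [Int.toNat_of_nonneg h0, add_assoc, z_copy]
  have := abs_add_le m i
  linarith

lemma hXX : IsShiftSpace XX where
  closed := isClosed_XX
  nonempty := ⟨_, shift_mem 0⟩
  inv := by
    apply Subset.antisymm
    · rintro _ ⟨w, hw, rfl⟩ N
      obtain ⟨m, hm⟩ := hw (N + 1)
      refine ⟨m + 1, fun i hi => ?_⟩
      show w (i + 1) = _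
      rw [hm (i + 1) (by
        have := abs_add_le i 1
        rw [abs_one] at this
        push_cast
        linarith)]
      push_cast
      congr 1; ring
    · intro w hw
      refine ⟨fun i => w (i - 1), ?_, ?_⟩
      · intro N
        obtain ⟨m, hm⟩ := hw (N + 1)
        obtain ⟨m', hm'⟩ := shift_mem (m - 1) N
        refine ⟨m', fun i hi => ?_⟩
        rw [← hm' i hi]
        show w (i - 1) = z (m - 1 + i)
        rw [hm (i - 1) (by
          have := abs_sub i 1
          rw [abs_one] at this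
          push_cast
          linarith)]
        congr 1; ring
      · funext i
        show w (i + 1 - 1) = w i
        rw [add_sub_cancel_right]

lemma σ_iter (n : ℕ) (w : XX) (i : ℤ) : ((σ hXX)^[n] w).1 i = w.1 (n + i) := by
  induction n generalizing i with
  | zero => simp
  | succ n ih =>
    rw [Function.iterate_succ_apply']
    show ((σ hXX)^[n] w).1 (i + 1) = _
    rw [ih]
    push_cast
    ring_nf

/-- the points of the orbit of `z` -/
noncomputable def zp (m : ℤ) : XX := ⟨fun i => z (m + i), shift_mem m⟩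

lemma transitive : Transitive hXX := by
  rintro U V hU hV ⟨u, hu⟩ ⟨v, hv⟩
  obtain ⟨N₁, h₁⟩ := exists_cyl hU hu
  obtain ⟨N₂, h₂⟩ := exists_cyl hV hv
  obtain ⟨m₁, hm₁⟩ := u.2 N₁
  obtain ⟨m₂, hm₂⟩ := v.2 N₂
  obtain ⟨k, hk⟩ := exists_pow (m₁ + m₂ + N₂ + 1)
  rw [abs_of_nonneg (by positivity)] at hk
  have hcast : ((10 ^ k : ℕ) : ℤ) = 10 ^ k := by push_cast; rfl
  have hk' : 2 * (m₁ + m₂ + N₂ + 1) ≤ 10 ^ k := by
    rw [← hcast] at hk; exact_mod_cast hk
  refine ⟨10 ^ k + m₂ - m₁, by omega, (σ hXX)^[10 ^ k + m₂ - m₁] (zp m₁),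
    ⟨zp m₁, h₁ _ fun i hi => (hm₁ i hi).symm, rfl⟩, h₂ _ fun i hi => ?_⟩
  rw [σ_iter, hm₂ i hi]
  show z (m₁ + (((10 ^ k + m₂ - m₁ : ℕ) : ℤ) + i)) = _
  rw [Nat.cast_sub (by omega)]
  push_cast
  rw [show (m₁ : ℤ) + (10 ^ k + m₂ - m₁ + i) = 10 ^ k + (m₂ + i) by ring]
  apply z_copy
  have h3 := abs_add_le (m₂ : ℤ) i
  rw [abs_of_nonneg (by positivity : (0 : ℤ) ≤ m₂)] at h3
  have h4 : (0 : ℤ) ≤ m₁ := Nat.cast_nonneg _
  linarith

/-- differences of the positions of the symbol `1` -/
lemma ones_gap {w : XX} {j : ℤ} {n : ℕ} (hn : 1 ≤ n) (h0 : w.1 j = true) (h1 : w.1 (j + n) = true)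
    (k : ℕ) : 9 * n < 10 ^ k ∨ 8 * 10 ^ k < 9 * n := by
  obtain ⟨m, hm⟩ := w.2 (j.natAbs + n)
  have a1 : |j| ≤ ((j.natAbs + n : ℕ) : ℤ) := by
    rw [Int.abs_eq_natAbs]; push_cast; linarith [Nat.cast_nonneg (α := ℤ) n]
  have a2 : |j + n| ≤ ((j.natAbs + n : ℕ) : ℤ) := by
    have h9 := abs_add_le j (n : ℤ)
    rw [abs_of_nonneg (by positivity : (0 : ℤ) ≤ n)] at h9
    have h8 : |j| = (j.natAbs : ℤ) := Int.abs_eq_natAbs j
    rw [Nat.cast_add, ← h8]
    exact h9
  rw [hm j a1] at h0
  rw [hm _ a2] at h1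
  obtain ⟨b1, b2⟩ := z_iff.1 h0
  obtain ⟨b3, b4⟩ := z_iff.1 h1
  have h2 := diff_gap b2 b4 (by omega) k
  have h3 : (((m : ℤ) + (j + n)).toNat - ((m : ℤ) + j).toNat) = n := by omega
  rwa [h3] at h2

lemma periodic_zero {w : XX} {n : ℕ} (hn : 1 ≤ n) (h : (σ hXX)^[n] w = w) (j : ℤ) :
    w.1 j = false := by
  by_contra hne
  have hj : w.1 j = true := by simpa using hne
  have hper : ∀ i : ℕ, w.1 (j + (n * i : ℕ)) = true := by
    intro i
    induction i with
    | zero => simpa using hj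
    | succ i ih =>
      have : w.1 (j + (n * i : ℕ)) = w.1 (n + (j + (n * i : ℕ))) := by
        conv_lhs => rw [← h]
        rw [σ_iter]
      rw [this] at ih
      rw [← ih]
      push_cast
      ring_nf
  -- a multiple of `n` in the gap
  have hk : n < 10 ^ n := Nat.lt_pow_self (by norm_num)
  set i := 10 ^ (n + 1) / (2 * n) with hi
  have e := Nat.div_add_mod (10 ^ (n + 1)) (2 * n)
  have e' := Nat.mod_lt (10 ^ (n + 1)) (show 0 < 2 * n by omega)
  rw [← hi] at e
  have h5 : 10 ^ (n + 1) = 10 * 10 ^ n := by ring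
  have e2 : 2 * (n * i) + 10 ^ (n + 1) % (2 * n) = 10 ^ (n + 1) := by
    rw [← mul_assoc]; exact e
  have hni : 1 ≤ n * i := by omega
  rcases ones_gap hni hj (hper i) (n + 1) with h1 | h1 <;> omega

/-! ### the roof function -/

open Classical in
/-- `1 / (k + 1)` where `k ≥ 0` is the first position of the symbol `1` to the right -/
noncomputable def g (w : XX) : ℝ :=
  if h : ∃ k : ℕ, w.1 k = true then 1 / ((Nat.find h : ℝ) + 1) else 0

lemma g_nonneg (w : XX) : 0 ≤ g w := by
  unfold g; split_ifs <;> positivity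

lemma g_le_one (w : XX) : g w ≤ 1 := by
  unfold g
  split_ifs
  · rw [div_le_one (by positivity)]
    linarith [Nat.cast_nonneg (α := ℝ) (Nat.find (p := fun k : ℕ => w.1 k = true) ‹_›)]
  · norm_num

lemma g_eq {w : XX} {k : ℕ} (hk : w.1 k = true) (h : ∀ i < k, w.1 i = false) :
    g w = 1 / ((k : ℝ) + 1) := by
  classical
  unfold g
  have hex : ∃ k : ℕ, w.1 k = true := ⟨k, hk⟩
  rw [dif_pos hex]
  have : Nat.find hex = k := by
    rw [Nat.find_eq_iff]
    exact ⟨hk, fun i hi => by rw [h i hi]; simp⟩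
  rw [this]

lemma g_le {w : XX} {k : ℕ} (h : ∀ i < k, w.1 i = false) : g w ≤ 1 / ((k : ℝ) + 1) := by
  classical
  by_cases hex : ∃ k : ℕ, w.1 k = true
  · unfold g
    rw [dif_pos hex]
    have : k ≤ Nat.find hex := by
      by_contra hcon
      push Not at hcon
      have := Nat.find_spec hex
      rw [h _ hcon] at this
      simp at this
    have h2 : (k : ℝ) ≤ Nat.find hex := by exact_mod_cast this
    exact one_div_le_one_div_of_le (by positivity) (by linarith)
  · unfold g
    rw [dif_neg hex]; positivity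

lemma continuous_g : Continuous g := by
  classical
  rw [Metric.continuous_iff']
  intro w ε hε
  by_cases hex : ∃ k : ℕ, w.1 k = true
  · have hopen := (isOpen_cyl w.1 (Nat.find hex)).preimage (continuous_subtype_val (p := (· ∈ XX)))
    filter_upwards [hopen.mem_nhds (show w ∈ _ from fun _ _ => rfl)] with y hy
    have hy' : ∀ i : ℤ, |i| ≤ (Nat.find hex : ℕ) → y.1 i = w.1 i := hy
    have e1 : ∀ i < Nat.find hex, w.1 (i : ℤ) = false := by
      intro i hi
      simpa using Nat.find_min hex hi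
    rw [g_eq (Nat.find_spec hex) e1, g_eq (w := y) (k := Nat.find hex)
      (by rw [hy' _ (by simp)]; exact Nat.find_spec hex)
      (fun i hi => by
        rw [hy' i (by simp only [Nat.abs_cast]; exact_mod_cast hi.le)]
        exact e1 i hi), dist_self]
    exact hε
  · obtain ⟨N, hN⟩ := exists_nat_one_div_lt hε
    push Not at hex
    have hopen := (isOpen_cyl w.1 N).preimage (continuous_subtype_val (p := (· ∈ XX)))
    filter_upwards [hopen.mem_nhds (show w ∈ _ from fun _ _ => rfl)] with y hy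
    have hy' : ∀ i : ℤ, |i| ≤ (N : ℕ) → y.1 i = w.1 i := hy
    have hw0 : g w = 0 := by
      unfold g; rw [dif_neg]; push Not; exact hex
    have h1 : g y ≤ 1 / ((N : ℝ) + 1) := g_le fun i hi => by
      rw [hy' i (by simp only [Nat.abs_cast]; exact_mod_cast hi.le)]
      simpa using hex i
    rw [hw0, Real.dist_eq, sub_zero, abs_of_nonneg (g_nonneg y)]
    linarith

/-- the roof function -/
noncomputable def r (w : XX) : ℝ := 1 + g w

lemma continuous_r : Continuous r := continuous_const.add continuous_g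

lemma r_pos (w : XX) : 0 < r w := by have := g_nonneg w; unfold r; linarith

/-- Birkhoff sums -/
noncomputable def S (f : XX → ℝ) (n : ℕ) (w : XX) : ℝ :=
  ∑ j ∈ Finset.range n, f ((σ hXX)^[j] w)

lemma S_add (f : XX → ℝ) (m n : ℕ) (w : XX) :
    S f (m + n) w = S f m w + S f n ((σ hXX)^[m] w) := by
  unfold S
  rw [Finset.sum_range_add]
  congr 1
  refine Finset.sum_congr rfl fun j _ => ?_
  rw [add_comm m j, Function.iterate_add_apply]

lemma S_ge (n : ℕ) (w : XX) : (n : ℝ) ≤ S r n w := by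
  unfold S
  have : ∑ _j ∈ Finset.range n, (1 : ℝ) ≤ ∑ j ∈ Finset.range n, r ((σ hXX)^[j] w) :=
    Finset.sum_le_sum fun j _ => by have := g_nonneg ((σ hXX)^[j] w); unfold r; linarith
  simpa using this

lemma S_le (n : ℕ) (w : XX) : S r n w ≤ 2 * n := by
  unfold S
  have : ∑ j ∈ Finset.range n, r ((σ hXX)^[j] w) ≤ ∑ _j ∈ Finset.range n, (2 : ℝ) :=
    Finset.sum_le_sum fun j _ => by have := g_le_one ((σ hXX)^[j] w); unfold r; linarith
  rw [Finset.sum_const, Finset.card_range, nsmul_eq_mul] at this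
  linarith

/-- a coboundary has Birkhoff sums given by the transfer function -/
lemma S_cob {f f' h : XX → ℝ} (hh : ∀ x, f x - f' x = h (σ hXX x) - h x) (n : ℕ) (w : XX) :
    S f n w - S f' n w = h ((σ hXX)^[n] w) - h w := by
  induction n with
  | zero => simp [S]
  | succ n ih =>
    unfold S at ih ⊢
    rw [Finset.sum_range_succ, Finset.sum_range_succ, Function.iterate_succ_apply']
    have := hh ((σ hXX)^[n] w)
    linarith

/-! ### the flow is not mixing -/

/-- the generator of the relation -/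
noncomputable def G (p : XX × ℝ) : XX × ℝ := (σ hXX p.1, p.2 - r p.1)

lemma G_iter (n : ℕ) (p : XX × ℝ) : G^[n] p = ((σ hXX)^[n] p.1, p.2 - S r n p.1) := by
  induction n with
  | zero => simp [S]
  | succ n ih =>
    rw [Function.iterate_succ_apply', ih]
    unfold G S
    rw [Finset.sum_range_succ, Function.iterate_succ_apply']
    congr 1
    ring

/-- equality in the quotient -/
lemma eqvGen_iter {p q : XX × ℝ}
    (h : Relation.EqvGen (fun p q : XX × ℝ => q = (σ hXX p.1, p.2 - r p.1)) p q) :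
    ∃ m n : ℕ, G^[m] p = G^[n] q := by
  induction h with
  | rel x y h => exact ⟨1, 0, by subst h; rfl⟩
  | refl x => exact ⟨0, 0, rfl⟩
  | symm x y _ ih =>
    obtain ⟨m, n, hmn⟩ := ih
    exact ⟨n, m, hmn.symm⟩
  | trans x y w h1 h2 ih1 ih2 =>
    obtain ⟨m, n, hmn⟩ := ih1
    obtain ⟨a, b, hab⟩ := ih2
    refine ⟨a + m, n + b, ?_⟩
    rw [Function.iterate_add_apply, hmn, ← Function.iterate_add_apply, add_comm a n,
      Function.iterate_add_apply, hab, ← Function.iterate_add_apply]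

lemma exact_quot {p q : XX × ℝ} (h : (Quot.mk _ p : Susp hXX r) = Quot.mk _ q) :
    ∃ m n : ℕ, G^[m] p = G^[n] q := eqvGen_iter (Quot.eqvGen_exact h)

lemma sound_iter (n : ℕ) (p : XX × ℝ) :
    (Quot.mk _ p : Susp hXX r) = Quot.mk _ (G^[n] p) := by
  induction n with
  | zero => rfl
  | succ n ih =>
    rw [ih, Function.iterate_succ_apply']
    exact Quot.sound rfl

lemma σ_injective : Function.Injective (σ hXX) := by
  intro x y h
  apply Subtype.ext
  funext i
  have := congrArg (fun w : XX => w.1 (i - 1)) h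
  simpa [σ, shift] using this

lemma σ_surjective : Function.Surjective (σ hXX) := by
  intro y
  have : y.1 ∈ shift '' XX := by rw [hXX.inv]; exact y.2
  obtain ⟨x, hx, hxy⟩ := this
  exact ⟨⟨x, hx⟩, Subtype.ext hxy⟩

instance : CompactSpace XX := isCompact_iff_compactSpace.1 isClosed_XX.isCompact

lemma continuous_σ : Continuous (σ hXX) := by
  refine Continuous.subtype_mk ?_ _
  exact continuous_pi fun i => (continuous_apply (i + 1)).comp continuous_subtype_val

lemma isOpenMap_σ : IsOpenMap (σ hXX) := by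
  have hcl : IsClosedMap (σ hXX) := continuous_σ.isClosedMap
  intro U hU
  have h1 := hcl _ hU.isClosed_compl
  rw [image_compl_eq ⟨σ_injective, σ_surjective⟩] at h1
  have h2 := h1.isOpen_compl
  rwa [compl_compl] at h2

lemma isOpenMap_G : IsOpenMap G := by
  have h1 : IsOpenMap (fun p : XX × ℝ => (p.1, p.2 - r p.1)) := by
    let e : XX × ℝ ≃ₜ XX × ℝ :=
      { toFun := fun p => (p.1, p.2 - r p.1)
        invFun := fun p => (p.1, p.2 + r p.1)
        left_inv := fun p => by simp
        right_inv := fun p => by simp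
        continuous_toFun := continuous_fst.prodMk (continuous_snd.sub (continuous_r.comp continuous_fst))
        continuous_invFun := continuous_fst.prodMk (continuous_snd.add (continuous_r.comp continuous_fst)) }
    exact e.isOpenMap
  have h2 : IsOpenMap (Prod.map (σ hXX) (id : ℝ → ℝ)) := isOpenMap_σ.prodMap IsOpenMap.id
  exact h2.comp h1

lemma isOpenMap_G_iter (n : ℕ) : IsOpenMap (G^[n]) := by
  induction n with
  | zero => exact IsOpenMap.id
  | succ n ih => rw [Function.iterate_succ']; exact isOpenMap_G.comp ih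

lemma continuous_G : Continuous G :=
  (continuous_σ.comp continuous_fst).prodMk (continuous_snd.sub (continuous_r.comp continuous_fst))

/-- the test set -/
def Aset : Set (XX × ℝ) := {p | p.1.1 0 = true ∧ 0 < p.2 ∧ p.2 < 1}

lemma isOpen_Aset : IsOpen Aset := by
  have hc : Continuous (fun p : XX × ℝ => p.1.1 0) :=
    (continuous_apply (A := fun _ : ℤ => Bool) 0).comp
      (continuous_subtype_val.comp continuous_fst)
  have h1 : IsOpen ((fun p : XX × ℝ => p.1.1 0) ⁻¹' {true}) :=
    (isOpen_discrete ({true} : Set Bool)).preimage hc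
  exact h1.inter ((isOpen_lt continuous_const continuous_snd).inter
    (isOpen_lt continuous_snd continuous_const))

/-- its image in the suspension -/
def U : Set (Susp hXX r) := Quot.mk _ '' Aset

lemma isOpen_U : IsOpen U := by
  have h1 : (Quot.mk _ : XX × ℝ → Susp hXX r) ⁻¹' U =
      ⋃ m : ℕ, ⋃ n : ℕ, (G^[m]) ⁻¹' (G^[n] '' Aset) := by
    ext p
    simp only [mem_preimage, mem_iUnion]
    constructor
    · rintro ⟨q, hq, hqp⟩
      obtain ⟨n, m, hmn⟩ := exact_quot hqp
      exact ⟨m, n, q, hq, hmn⟩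
    · rintro ⟨m, n, q, hq, hqp⟩
      refine ⟨q, hq, ?_⟩
      rw [sound_iter n q, hqp, ← sound_iter m p]
  have h2 : IsOpen ((Quot.mk _ : XX × ℝ → Susp hXX r) ⁻¹' U) := by
    rw [h1]
    refine isOpen_iUnion fun m => isOpen_iUnion fun n => ?_
    exact (isOpenMap_G_iter n _ isOpen_Aset).preimage (continuous_G.iterate m)
  exact h2

lemma not_mixing : ¬ Mixing hXX r := by
  intro hmix
  have hne : U.Nonempty := by
    refine ⟨Quot.mk _ (zp 0, 1 / 2), (zp 0, 1 / 2), ⟨?_, by norm_num, by norm_num⟩, rfl⟩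
    show z (0 + 0) = true
    rw [z_iff]
    exact ⟨by norm_num, zero_mem⟩
  obtain ⟨T, hT⟩ := hmix U U isOpen_U isOpen_U hne hne
  obtain ⟨k, hk⟩ := pow_unbounded_of_one_lt (max (2 * T) 20) (show (1 : ℝ) < 10 by norm_num)
  have hk1 : 2 * T < 10 ^ k := lt_of_le_of_lt (le_max_left _ _) hk
  have hk2 : (20 : ℝ) < 10 ^ k := lt_of_le_of_lt (le_max_right _ _) hk
  obtain ⟨_, ⟨_, ⟨⟨x, s⟩, ⟨hx, hs0, hs1⟩, rfl⟩, rfl⟩, ⟨y, s'⟩, ⟨hy, hs0', hs1'⟩, he⟩ :=
    hT (10 ^ k / 2) (by linarith)
  simp only at hx hs0 hs1 hy hs0' hs1'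
  have he' : (Quot.mk _ (x, s + 10 ^ k / 2) : Susp hXX r) = Quot.mk _ (y, s') := he.symm
  obtain ⟨m, n, hmn⟩ := exact_quot he'
  rw [G_iter, G_iter] at hmn
  obtain ⟨h1, h2⟩ := Prod.mk.inj hmn
  simp only at h1 h2
  rcases le_total n m with h | h
  · obtain ⟨l, rfl⟩ : ∃ l, m = l + n := ⟨m - n, by omega⟩
    rw [add_comm l n, Function.iterate_add_apply] at h1
    have h3 : (σ hXX)^[l] x = y := (σ_injective.iterate n) h1
    rw [S_add, h3] at h2
    have h4 : s + 10 ^ k / 2 - S r l x = s' := by linarith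
    have h5 := S_ge l x
    have h6 := S_le l x
    have hl1 : (1 : ℝ) ≤ l := by linarith
    have hl2 : 1 ≤ l := by exact_mod_cast hl1
    have hyl : x.1 (0 + (l : ℕ)) = true := by
      rw [← h3, σ_iter] at hy
      rw [zero_add]
      rwa [add_zero] at hy
    rcases ones_gap hl2 hx hyl k with h7 | h7
    · have h8 : 9 * (l : ℝ) < 10 ^ k := by exact_mod_cast h7
      linarith
    · have h8 : 8 * (10 : ℝ) ^ k < 9 * l := by exact_mod_cast h7
      linarith
  · obtain ⟨l, rfl⟩ : ∃ l, n = l + m := ⟨n - m, by omega⟩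
    rw [add_comm l m, Function.iterate_add_apply] at h1
    have h3 : x = (σ hXX)^[l] y := (σ_injective.iterate m) h1
    rw [S_add, ← h3] at h2
    have h5 := S_ge l y
    have h6 : (0 : ℝ) ≤ l := Nat.cast_nonneg _
    linarith

/-! ### the roof function is not cohomologous to a locally constant function -/

/-- the point with only zeros -/
lemma zero_mem_XX : (fun _ => false) ∈ XX := by
  rw [← isClosed_XX.closure_eq]
  have h1 : Tendsto (fun n : ℕ => (fun i : ℤ => z (-(n : ℤ) + i))) atTop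
      (𝓝 (fun _ : ℤ => false)) := by
    rw [tendsto_pi_nhds]
    intro i
    refine tendsto_const_nhds.congr' ?_
    filter_upwards [eventually_gt_atTop i.natAbs] with n hn
    symm
    by_contra hne
    have h2 : z (-(n : ℤ) + i) = true := by simpa using hne
    have := (z_iff.1 h2).1
    omega
  exact mem_closure_of_tendsto h1 (Eventually.of_forall fun n => shift_mem _)

/-- the zero point -/
def o : XX := ⟨fun _ => false, zero_mem_XX⟩

lemma not_cohomologous {f : XX → ℝ} (hf : LocConst f) : ¬ Cohomologous hXX r f := by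
  rintro ⟨h, hc, hh⟩
  obtain ⟨N, hN⟩ := hf
  obtain ⟨B, hB⟩ := (isCompact_range hc).isBounded.exists_norm_le
  have hB' : ∀ x, |h x| ≤ B := fun x => hB _ (mem_range_self x)
  -- the value at the zero point
  have ho : f o = 1 := by
    have h1 : σ hXX o = o := rfl
    have h2 := hh o
    rw [h1, sub_self] at h2
    have h3 : g o = 0 := by
      unfold g; rw [dif_neg]; push Not; intro k; simp [o]
    unfold r at h2
    rw [h3] at h2
    linarith
  -- `f` is bounded above
  obtain ⟨C, hC0, hC⟩ : ∃ C : ℝ, 0 ≤ C ∧ ∀ x, f x ≤ C := by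
    refine ⟨2 + 2 * |B|, by positivity, fun x => ?_⟩
    have h1 := hh x
    have h2 := abs_le.1 (hB' x)
    have h3 := abs_le.1 (hB' (σ hXX x))
    have h4 := g_le_one x
    have h5 := le_abs_self B
    unfold r at h1
    linarith
  -- the Birkhoff sums along the points `zp (-n)`
  have hval : ∀ n j : ℕ, j < n → r ((σ hXX)^[j] (zp (-n))) = 1 + 1 / (((n - j : ℕ) : ℝ) + 1) := by
    intro n j hj
    unfold r
    rw [g_eq (k := n - j)]
    · rw [σ_iter]
      show z (-(n : ℤ) + ((j : ℤ) + ((n - j : ℕ) : ℤ))) = true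
      rw [Nat.cast_sub hj.le, show -(n : ℤ) + (j + ((n : ℤ) - j)) = 0 by ring, z_iff]
      exact ⟨le_rfl, zero_mem⟩
    · intro i hi
      rw [σ_iter]
      show z (-(n : ℤ) + ((j : ℤ) + (i : ℤ))) = false
      by_contra hne
      have h2 : z (-(n : ℤ) + ((j : ℤ) + (i : ℤ))) = true := by simpa using hne
      have := (z_iff.1 h2).1
      omega
  have hfval : ∀ n j : ℕ, j + N < n → f ((σ hXX)^[j] (zp (-n))) = 1 := by
    intro n j hj
    rw [← ho]
    apply hN
    intro i hi
    rw [σ_iter]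
    show z (-(n : ℤ) + ((j : ℤ) + (i : ℤ))) = false
    by_contra hne
    have h2 : z (-(n : ℤ) + ((j : ℤ) + (i : ℤ))) = true := by simpa using hne
    have h3 := (z_iff.1 h2).1
    have h4 := (abs_le.1 hi).2
    omega
  -- lower bound of the difference
  have hdiff : ∀ n : ℕ, (∑ i ∈ Finset.range n, 1 / ((i : ℝ) + 1)) - 1 - N * C ≤
      S r n (zp (-n)) - S f n (zp (-n)) := by
    intro n
    have e1 : S r n (zp (-n)) = ∑ j ∈ Finset.range n, (1 + 1 / (((n - j : ℕ) : ℝ) + 1)) :=
      Finset.sum_congr rfl fun j hj => hval n j (Finset.mem_range.1 hj)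
    have e2 : ∑ j ∈ Finset.range n, (1 + 1 / (((n - j : ℕ) : ℝ) + 1)) =
        n + ∑ j ∈ Finset.range n, 1 / (((j + 1 : ℕ) : ℝ) + 1) := by
      rw [Finset.sum_add_distrib, Finset.sum_const, Finset.card_range, nsmul_eq_mul, mul_one]
      congr 1
      rw [← Finset.sum_range_reflect]
      refine Finset.sum_congr rfl fun j hj => ?_
      rw [Finset.mem_range] at hj
      rw [show n - (n - 1 - j) = j + 1 by omega]
    have e3 : (∑ i ∈ Finset.range n, 1 / ((i : ℝ) + 1)) - 1 ≤
        ∑ j ∈ Finset.range n, 1 / (((j + 1 : ℕ) : ℝ) + 1) := by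
      have h1 := Finset.sum_range_succ (fun i : ℕ => 1 / ((i : ℝ) + 1)) n
      have h2 := Finset.sum_range_succ' (fun i : ℕ => 1 / ((i : ℝ) + 1)) n
      have h3 : 0 ≤ 1 / ((n : ℝ) + 1) := by positivity
      simp only [Nat.cast_zero, zero_add, div_one] at h2
      linarith
    have e4 : S f n (zp (-n)) ≤ n + N * C := by
      unfold S
      have h1 : ∀ j ∈ Finset.range n, f ((σ hXX)^[j] (zp (-n))) ≤
          1 + (if n ≤ j + N then C else 0) := by
        intro j _
        split_ifs with h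
        · linarith [hC ((σ hXX)^[j] (zp (-n)))]
        · rw [hfval n j (by omega)]; linarith
      refine (Finset.sum_le_sum h1).trans ?_
      rw [Finset.sum_add_distrib, Finset.sum_const, Finset.card_range, nsmul_eq_mul, mul_one,
        ← Finset.sum_filter, Finset.sum_const, nsmul_eq_mul]
      have h2 : ((Finset.range n).filter fun j => n ≤ j + N).card ≤ N := by
        have h3 : ((Finset.range n).filter fun j => n ≤ j + N) ⊆ Finset.Ico (n - N) n := by
          intro j hj
          rw [Finset.mem_filter, Finset.mem_range] at hj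
          rw [Finset.mem_Ico]; omega
        refine (Finset.card_le_card h3).trans ?_
        rw [Nat.card_Ico]; omega
      have h4 : (((Finset.range n).filter fun j => n ≤ j + N).card : ℝ) ≤ N := by exact_mod_cast h2
      have h5 := mul_le_mul_of_nonneg_right h4 hC0
      linarith
    rw [e1, e2]
    linarith
  -- contradiction with the divergence of the harmonic series
  obtain ⟨n, hn⟩ := (Real.tendsto_sum_range_one_div_nat_succ_atTop.eventually_gt_atTop
    (1 + N * C + 2 * B)).exists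
  have h1 := hdiff n
  rw [S_cob hh] at h1
  have h2 := abs_le.1 (hB' (zp (-n)))
  have h3 := abs_le.1 (hB' ((σ hXX)^[n] (zp (-n))))
  linarith

/-- There are a transitive shift space with finitely many periodic points and a roof function
whose suspension flow is not topologically mixing and which is cohomologous to no constant and to
no locally constant function. -/
theorem result : ∃ (X : Set (ℤ → Bool)) (hX : IsShiftSpace X), Transitive hX ∧
    {x : X | ∃ n : ℕ, 1 ≤ n ∧ (σ hX)^[n] x = x}.Finite ∧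
    ∃ r : X → ℝ, Continuous r ∧ (∀ x, 0 < r x) ∧ ¬ Mixing hX r ∧
      (¬ ∃ c : ℝ, Cohomologous hX r fun _ => c) ∧
      ¬ ∃ g : X → ℝ, LocConst g ∧ Cohomologous hX r g := by
  refine ⟨XX, hXX, transitive, ?_, r, continuous_r, r_pos, not_mixing, ?_, ?_⟩
  · refine (Set.finite_singleton o).subset ?_
    rintro w ⟨n, hn, hw⟩
    rw [mem_singleton_iff]
    apply Subtype.ext
    funext j
    exact periodic_zero hn hw j
  · rintro ⟨c, hc⟩
    exact not_cohomologous ⟨0, fun _ _ _ => rfl⟩ hc
  · rintro ⟨g, hg, hc⟩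
    exact not_cohomologous hg hc

end Pool.Agent.Results.MP_49f1ce_an.NonMixingSuspension
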